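import Pool.Agent.H445.MT.ModE

/-!
# MP_1eadae_ag: the periods of products of elliptic curves and of the logarithms of numbers, and the dimension of the exceptional sets over larger fields

For points `τ = (τ_1, …, τ_n)` of the upper half-plane and complex numbers `w = (w_1, …, w_s)` let
`E_i = ℂ / (ℤ + ℤ τ_i)` and let `M(τ,w)` be the (mixed) motive
`H¹(𝔾_m) ⊕ H¹(E_1) ⊕ ⋯ ⊕ H¹(E_n) ⊕ H¹(𝔾_m, {1, e^{w_1}, …, e^{w_s}})`. Let `T(r,n,s,m)` be the set of all `(τ,w)` such that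

* `M(τ,w)` can be defined over a field of transcendence degree at most `r`:
  `trdeg ℚ(j(τ_i), e^{w_k}) ≤ r`, and
* `trdeg ℚ(2πi, τ_i, η₁(τ_i), g₂(τ_i), g₃(τ_i), w_k, e^{w_k}) ≤ 1 + 3 a + b + c - m`,

where `a` and `b` are the numbers of the isogeny classes of the curves without and with complex multiplication and
`c` is the dimension of the `ℚ`-span of the `w_k` modulo `2πi ℚ`, so that `1 + 3 a + b + c` is the dimension of the
motivic Galois group of `M(τ,w)`. For `r = 0` everything is defined over `ℚ̄`, the transcendence degree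
is the one of the field of the periods of `M(τ,w)`, and Kontsevich's conjecture for the formal periods of the
motives generated by `M(τ,w)` says that it is `1 + 3 a + b + c`.

Let `PeriodBound n s m` be this inequality with an error `m` for all these motives over `ℚ̄`: if `L_1, …, L_n` are
lattices with algebraic invariants `g₂`, `g₃` and the numbers `e^{w_1}, …, e^{w_s}` are algebraic, then the
transcendence degree of the periods and quasi-periods of the lattices, `2πi` and the logarithms `w_k`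
is at least `1 + 3 a + b + c - m`. We prove:

* The Hausdorff dimension of `T(r,n,s,m)` is exactly `2 d`, where `d ≤ r` is the largest number `i + k` for which
  `T(r - d, n - i, s - k, m + d)` is not empty (`0` if there is none), and then `m + 4 i + 2 k ≤ 3 n + s`.
* `T(r,n,s,m)` is countable if and only if `r = 0` or `T(r - 1, n - 1, s, m + 1)` (for `n ≥ 1`) and
  `T(r - 1, n, s - 1, m + 1)` (for `s ≥ 1`) are empty. In particular `T(1,n,s,m)` is countable if and only if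
  `PeriodBound (n - 1) s m` (for `n ≥ 1`) and `PeriodBound n (s - 1) m` (for `s ≥ 1`) hold.
* For every `n`, `m`, `d`, `r`: `T(r, n, s, m + d + 1)` is empty for all `s` if and only if the dimension of
  `T(r + d + 1, n, s, m)` is at most `2 d` for all `s`; the same with the roles of `n` and `s` exchanged.
* For every `n`, `m`, `d`: `PeriodBound n s (m + d)` holds for all `s` if and only if the dimension of
  `T(d + 1, n, s, m)` is at most `2 d` for all `s`; the same with the roles of `n` and `s` exchanged. For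
  `m = d = 0`: the conjecture holds for all `M(τ,w)` over `ℚ̄` with `n` curves if and only if for all `s` there are only
  countably many `M(τ,w)` over fields of transcendence degree at most one with `n` curves and `s` exponents for which
  the transcendence degree of the periods is at most `1 + 3 a + b + c`.

## The proof (in `Pool.Agent.H445.MJ`, `Pool.Agent.H445.MX`, `Pool.Agent.H445.MT`)

The main tool is a mixed Ax-Schanuel theorem for `j` and its derivatives (or the periods and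
quasi-periods) and the exponential function in a pointwise form. For a field `K` which is countable and closed under
the functions and their differential equations, a point with a space of compatible directions of dimension `δ` has a
part in `K` for which the defect is larger by `δ` (`reduceT`). The compatible derivations are determined by
their values at the numbers `j(τ_i)`, `e^{w_k}`; so the transcendence degree of the field of definition of this part
is smaller by `δ` (`type_le`).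
-/

set_option autoImplicit false

open Set

noncomputable section

namespace Pool.Agent.Results.MP_1eadae_ag.DimensionByFieldOfDefinition

open Pool.Agent.H445.MX (BaseX BadX cntC oC)
open Pool.Agent.H445.MT
open Pool.Agent.H445.MJ (oN trdeg_iff CMp LC_eq)
open Pool.Agent.H445 (dimQ dimQ_le)

/-- The lattice `ℤ + ℤ τ`. -/
def lattice (τ : ℂ) (h : 0 < τ.im) : PeriodPair where
  ω₁ := 1
  ω₂ := τ
  indep := (Pool.Agent.Y685.LL ⟨τ, h⟩).indep

/-- The Weierstrass zeta function (the summand of `l = 0` is `1 / z`). -/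
def zeta (L : PeriodPair) (z : ℂ) : ℂ := ∑' l : L.lattice, (1 / (z - l) + 1 / l + z / l ^ 2)

/-- The quasi-period `ζ(z + l) - ζ(z)` of the period `l` (it does not depend on `z`; we take `z = ω₁/2`). -/
def quasiPeriod (L : PeriodPair) (l : ℂ) : ℂ := zeta L (L.ω₁ / 2 + l) - zeta L (L.ω₁ / 2)

/-- The invariant `g₂` of the lattice `ℤ + ℤ τ`. -/
def g₂ (τ : ℂ) : ℂ := if h : 0 < τ.im then (lattice τ h).g₂ else 0

/-- The invariant `g₃` of the lattice `ℤ + ℤ τ`. -/
def g₃ (τ : ℂ) : ℂ := if h : 0 < τ.im then (lattice τ h).g₃ else 0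

/-- The quasi-period of the period `1` of the lattice `ℤ + ℤ τ`. -/
def η₁ (τ : ℂ) : ℂ := if h : 0 < τ.im then quasiPeriod (lattice τ h) 1 else 0

/-- The modular invariant. -/
def j (τ : ℂ) : ℂ := 1728 * g₂ τ ^ 3 / (g₂ τ ^ 3 - 27 * g₃ τ ^ 2)

/-- The numbers `j(τ_i)`, `e^{w_k}`. -/
def invariants {n s : ℕ} (τ : Fin n → ℂ) (w : Fin s → ℂ) : Set ℂ :=
  {x | ∃ i, x = j (τ i)} ∪ {x | ∃ k, x = Complex.exp (w k)}

/-- The numbers `2πi`, `τ_i`, `η₁(τ_i)`, `g₂(τ_i)`, `g₃(τ_i)`, `w_k`, `e^{w_k}`. -/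
def numbers {n s : ℕ} (τ : Fin n → ℂ) (w : Fin s → ℂ) : Set ℂ :=
  {2 * (Real.pi : ℂ) * Complex.I} ∪
    ({x | ∃ i, x = τ i ∨ x = η₁ (τ i) ∨ x = g₂ (τ i) ∨ x = g₃ (τ i)} ∪ {x | ∃ k, x = w k ∨ x = Complex.exp (w k)})

/-- The curve `E_τ` has complex multiplication: `τ` is quadratic. -/
def HasCM (τ : ℂ) : Prop :=
  ∃ a b c : ℤ, (a ≠ 0 ∨ b ≠ 0 ∨ c ≠ 0) ∧ (a : ℂ) * τ ^ 2 + (b : ℂ) * τ + (c : ℂ) = 0

/-- The points `σ` of the upper half-plane for which `E_σ` is isogenous to `E_τ`. -/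
def isogenyClass (τ : ℂ) : Set ℂ :=
  {σ | 0 < σ.im ∧ ∃ a b c d : ℚ, 0 < a * d - b * c ∧ σ * ((c : ℂ) * τ + (d : ℂ)) = (a : ℂ) * τ + (b : ℂ)}

/-- The number of the isogeny classes of the curves without complex multiplication. -/
def a {n : ℕ} (τ : Fin n → ℂ) : ℕ := {O | ∃ i, ¬ HasCM (τ i) ∧ O = isogenyClass (τ i)}.ncard

/-- The number of the isogeny classes of the curves with complex multiplication. -/
def b {n : ℕ} (τ : Fin n → ℂ) : ℕ := {O | ∃ i, HasCM (τ i) ∧ O = isogenyClass (τ i)}.ncard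

/-- The dimension of the `ℚ`-span of the numbers `w_k` modulo `2πi ℚ`. -/
def c {s : ℕ} (w : Fin s → ℂ) : ℕ :=
  Module.finrank ℚ (Submodule.span ℚ (Set.range fun k =>
    (Submodule.span ℚ {2 * (Real.pi : ℂ) * Complex.I}).mkQ (w k)))

/-- `T(r,n,s,m)`: all `(τ,w)` in `ℍ^n × ℂ^s` with `trdeg ℚ(j(τ_i), e^{w_k}) ≤ r` and
`trdeg ℚ(numbers) + m ≤ 1 + 3 a + b + c`. -/
def T (r n s m : ℕ) : Set ((Fin n → ℂ) × (Fin s → ℂ)) :=
  {p | (∀ i, 0 < (p.1 i).im) ∧
    Algebra.trdeg ℚ (IntermediateField.adjoin ℚ (invariants p.1 p.2)) ≤ (r : Cardinal) ∧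
    Algebra.trdeg ℚ (IntermediateField.adjoin ℚ (numbers p.1 p.2)) + m ≤
      ((1 + 3 * a p.1 + b p.1 + c p.2 : ℕ) : Cardinal)}

/-- The largest `i + k ≤ r` such that `T(r - i - k, n - i, s - k, m + i + k)` is not empty (zero if there is
none). -/
def level (r n s m : ℕ) : ℕ :=
  sSup {d | d ≤ r ∧ ∃ i k, i ≤ n ∧ k ≤ s ∧ i + k = d ∧ (T (r - d) (n - i) (s - k) (m + d)).Nonempty}

/-- The periods and quasi-periods of the lattices `L_i`, `2πi` and the logarithms `w_k`. -/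
def periods {n s : ℕ} (L : Fin n → PeriodPair) (w : Fin s → ℂ) : Set ℂ :=
  ({2 * (Real.pi : ℂ) * Complex.I} ∪ {x | ∃ i, x = (L i).ω₁ ∨ x = (L i).ω₂ ∨
    x = quasiPeriod (L i) (L i).ω₁ ∨ x = quasiPeriod (L i) (L i).ω₂}) ∪ {x | ∃ k, x = w k}

/-- The inequality with the error `m` over `ℚ̄`, for `n` elliptic curves (`y² = 4 x³ - g₂ x - g₃` with algebraic
`g₂`, `g₃`; the bases of the lattices are oriented) and `s` logarithms of algebraic numbers. -/
def PeriodBound (n s m : ℕ) : Prop :=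
  ∀ (L : Fin n → PeriodPair) (w : Fin s → ℂ), (∀ i, 0 < ((L i).ω₂ / (L i).ω₁).im) →
    (∀ i, IsAlgebraic ℚ (L i).g₂ ∧ IsAlgebraic ℚ (L i).g₃) → (∀ k, IsAlgebraic ℚ (Complex.exp (w k))) →
    ((1 + 3 * a (fun i => (L i).ω₂ / (L i).ω₁) + b (fun i => (L i).ω₂ / (L i).ω₁) + c w : ℕ) : Cardinal) ≤
      Algebra.trdeg ℚ (IntermediateField.adjoin ℚ (periods L w)) + m

/-- the base -/
abbrev P0 : Set ℂ := {2 * (Real.pi : ℂ) * Complex.I}

/-- the periods -/
abbrev B0 : Submodule ℚ ℂ := Submodule.span ℚ {2 * (Real.pi : ℂ) * Complex.I}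

theorem base : BaseX P0 B0 :=
  ⟨Set.finite_singleton _, FiniteDimensional.span_of_finite ℚ (Set.finite_singleton _)⟩

theorem hP0 : 2 * (Real.pi : ℂ) * Complex.I ∈ P0 := rfl

theorem lat_eq {τ : ℂ} (h : 0 < τ.im) : Pool.Agent.Y685.LC τ = lattice τ h := LC_eq h rfl rfl

theorem g₂_eq {τ : ℂ} (h : 0 < τ.im) : g₂ τ = (Pool.Agent.Y685.LC τ).g₂ := by
  rw [g₂, dif_pos h, lat_eq h]

theorem g₃_eq {τ : ℂ} (h : 0 < τ.im) : g₃ τ = (Pool.Agent.Y685.LC τ).g₃ := by
  rw [g₃, dif_pos h, lat_eq h]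

theorem η₁_eq {τ : ℂ} (h : 0 < τ.im) : η₁ τ = Pool.Agent.Y685.h1 τ := by
  rw [η₁, dif_pos h, Pool.Agent.Y685.h1, lat_eq h]
  rfl

theorem j_eq {τ : ℂ} (h : 0 < τ.im) : j τ = Pool.Agent.Y776.jf τ := by
  rw [j, g₂_eq h, g₃_eq h]
  rfl

theorem numbers_eq {n s : ℕ} {τ : Fin n → ℂ} (hτ : ∀ i, 0 < (τ i).im) (w : Fin s → ℂ) :
    numbers τ w = P0 ∪ (Pool.Agent.H445.MJ.NS (range τ) ∪ Pool.Agent.Y776.ET w) := by
  unfold numbers
  congr 1
  congr 1
  · ext x
    simp only [Pool.Agent.H445.MJ.NS, Pool.Agent.H445.MJ.N1, mem_ofPred_eq, mem_iUnion, mem_range, exists_prop,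
      exists_exists_eq_and, mem_insert_iff, mem_singleton_iff]
    exact exists_congr fun i => by rw [g₂_eq (hτ i), g₃_eq (hτ i), η₁_eq (hτ i)]
  · ext x
    constructor
    · rintro ⟨k, rfl | rfl⟩
      · exact Or.inl ⟨k, rfl⟩
      · exact Or.inr ⟨k, rfl⟩
    · rintro (⟨k, rfl⟩ | ⟨k, rfl⟩)
      · exact ⟨k, Or.inl rfl⟩
      · exact ⟨k, Or.inr rfl⟩

theorem invariants_eq {n s : ℕ} {τ : Fin n → ℂ} (hτ : ∀ i, 0 < (τ i).im) (w : Fin s → ℂ) :
    invariants τ w = TY (range τ) w := by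
  ext x
  constructor
  · rintro (⟨i, rfl⟩ | ⟨k, rfl⟩)
    · rw [j_eq (hτ i)]
      exact Or.inl ⟨_, ⟨i, rfl⟩, rfl⟩
    · exact Or.inr ⟨k, rfl⟩
  · rintro (⟨_, ⟨i, rfl⟩, rfl⟩ | ⟨i, rfl⟩)
    · exact Or.inl ⟨i, (j_eq (hτ i)).symm⟩
    · exact Or.inr ⟨i, rfl⟩

theorem a_eq {n : ℕ} (z : Fin n → ℂ) : a z = (oN (range z)).ncard := by
  unfold a oN
  congr 1
  ext O
  constructor
  · rintro ⟨i, h, rfl⟩
    exact ⟨z i, ⟨⟨i, rfl⟩, h⟩, rfl⟩
  · rintro ⟨_, ⟨⟨i, rfl⟩, h⟩, rfl⟩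
    exact ⟨i, h, rfl⟩

theorem b_eq {n : ℕ} (z : Fin n → ℂ) : b z = (oC (range z)).ncard := by
  unfold b oC
  congr 1
  ext O
  constructor
  · rintro ⟨i, h, rfl⟩
    exact ⟨z i, ⟨⟨i, rfl⟩, h⟩, rfl⟩
  · rintro ⟨_, ⟨⟨i, rfl⟩, h⟩, rfl⟩
    exact ⟨i, h, rfl⟩

theorem key {n s : ℕ} (z : Fin n → ℂ) (w : Fin s → ℂ) :
    1 + 3 * a z + b z + c w = cntC (range z) + dimQ B0 w + 1 := by
  rw [cntC, ← a_eq, ← b_eq]
  change _ = 3 * a z + b z + c w + 1
  omega

theorem mem_T {r n s m : ℕ} {z : Fin n → ℂ} {w : Fin s → ℂ} :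
    (z, w) ∈ T r n s m ↔ BadT P0 B0 1 m r (range z) w := by
  constructor
  · rintro ⟨h1, h2, h3⟩
    refine ⟨⟨finite_range z, ?_, ?_⟩, ?_⟩
    · rintro _ ⟨i, rfl⟩
      exact h1 i
    · have h4 := (trdeg_iff m (1 + 3 * a z + b z + c w)).1 h3
      rw [key] at h4
      rwa [numbers_eq h1 w] at h4
    · have h4 := (trdeg_iff 0 r).1 (by simpa using h2)
      rw [invariants_eq h1 w] at h4
      simpa using h4
  · rintro ⟨⟨-, h1, h2⟩, h3⟩
    have h1' : ∀ i, 0 < (z i).im := fun i => h1 _ ⟨i, rfl⟩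
    refine ⟨h1', ?_, ?_⟩
    · have h4 := (trdeg_iff (S := TY (range z) w) 0 r).2 (by simpa using h3)
      rw [← invariants_eq h1' w] at h4
      simpa using h4
    · refine (trdeg_iff m (1 + 3 * a z + b z + c w)).2 ?_
      rw [key, numbers_eq h1' w]
      exact h2

theorem image_T (r n s m : ℕ) : (Fin.appendIsometry (α := ℂ) n s) '' T r n s m = VT P0 B0 1 n s m r := by
  ext v
  constructor
  · rintro ⟨⟨z, w⟩, h, rfl⟩
    exact append_mem_VT.2 (mem_T.1 h)
  · intro h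
    refine ⟨(fun i => v (Fin.castAdd s i), fun i => v (Fin.natAdd n i)), mem_T.2 h, ?_⟩
    exact Pool.Agent.H445.append_eta v

theorem dimH_T (r n s m : ℕ) : dimH (T r n s m) = dimH (VT P0 B0 1 n s m r) := by
  rw [← image_T, IsometryEquiv.dimH_image]

theorem countable_T (r n s m : ℕ) : (T r n s m).Countable ↔ (VT P0 B0 1 n s m r).Countable := by
  rw [← image_T]
  exact ⟨fun h => h.image _,
    fun h => Set.countable_of_injective_of_countable_image (Fin.appendIsometry (α := ℂ) n s).injective.injOn h⟩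

theorem nonempty_T (r n s m : ℕ) : (T r n s m).Nonempty ↔ (VT P0 B0 1 n s m r).Nonempty := by
  rw [← image_T, image_nonempty]

theorem Lev_eq (r n s m : ℕ) : LevT P0 B0 1 n s m r =
    {d | d ≤ r ∧ ∃ i k, i ≤ n ∧ k ≤ s ∧ i + k = d ∧ (T (r - d) (n - i) (s - k) (m + d)).Nonempty} := by
  ext d
  simp only [LevT, mem_ofPred_eq, nonempty_T]

theorem dim_eq (r n s m : ℕ) : dimH (T r n s m) = (2 * level r n s m : ℕ) := by
  rw [dimH_T, level, ← Lev_eq]
  exact dimVT base hP0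

theorem bound {r n s m : ℕ} (h : (T r n s m).Nonempty) : m ≤ 3 * n + s := by
  rw [nonempty_T] at h
  exact VT_bound hP0 h

theorem mono {r r' n s m m' : ℕ} (hr : r ≤ r') (hm : m ≤ m') (h : (T r n s m').Nonempty) :
    (T r' n s m).Nonempty := by
  rw [nonempty_T] at h ⊢
  exact h.mono (VT_mono hm hr)

theorem extend {r n s n' s' m : ℕ} (hn : n ≤ n') (hs : s ≤ s') (h : (T r n s m).Nonempty) :
    (T r n' s' m).Nonempty := by
  rw [nonempty_T] at h ⊢
  exact VT_extend hP0 hn hs h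

theorem lower {r n s m i k : ℕ} (hr : i + k ≤ r) (hi : i ≤ n) (hk : k ≤ s)
    (h : (T (r - (i + k)) (n - i) (s - k) (m + (i + k))).Nonempty) :
    ((2 * (i + k) : ℕ) : ENNReal) ≤ dimH (T r n s m) := by
  rw [dimH_T]
  apply lowerT base
  rw [Lev_eq]
  exact ⟨hr, i, k, hi, hk, rfl, h⟩

theorem level_spec (r n s m : ℕ) : level r n s m = 0 ∨
    ∃ i k, i ≤ n ∧ k ≤ s ∧ i + k = level r n s m ∧ i + k ≤ r ∧
      (T (r - (i + k)) (n - i) (s - k) (m + (i + k))).Nonempty := by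
  rcases Set.eq_empty_or_nonempty
    {d | d ≤ r ∧ ∃ i k, i ≤ n ∧ k ≤ s ∧ i + k = d ∧ (T (r - d) (n - i) (s - k) (m + d)).Nonempty} with h | h
  · left
    rw [level, h, csSup_empty]
    rfl
  · right
    have h1 := Nat.sSup_mem h (by rw [← Lev_eq]; exact LevT_bdd)
    obtain ⟨h0, i, k, h2, h3, h4, h5⟩ := h1
    refine ⟨i, k, h2, h3, h4, ?_, ?_⟩
    · rw [h4]
      exact h0
    · rw [h4]
      exact h5

theorem countable_iff (r n s m : ℕ) : (T r n s m).Countable ↔
    (1 ≤ r → (1 ≤ n → T (r - 1) (n - 1) s (m + 1) = ∅) ∧ (1 ≤ s → T (r - 1) n (s - 1) (m + 1) = ∅)) := by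
  rw [countable_T, countableVT base hP0, Lev_eq]
  constructor
  · intro h hr
    constructor
    · intro hn
      by_contra hne
      exact h ⟨hr, 1, 0, hn, Nat.zero_le _, rfl, nonempty_iff_ne_empty.2 hne⟩
    · intro hs
      by_contra hne
      exact h ⟨hr, 0, 1, Nat.zero_le _, hs, rfl, nonempty_iff_ne_empty.2 hne⟩
  · rintro h0 ⟨hr, i, k, hi, hk, hik, h⟩
    obtain ⟨h1, h2⟩ := h0 hr
    have h0 : i = 1 ∧ k = 0 ∨ i = 0 ∧ k = 1 := by omega
    rcases h0 with ⟨rfl, rfl⟩ | ⟨rfl, rfl⟩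
    · have h3 := h1 hi
      rw [Nat.sub_zero, h3] at h
      exact not_nonempty_empty h
    · have h3 := h2 hk
      rw [Nat.sub_zero, h3] at h
      exact not_nonempty_empty h

theorem dim_le {r n s m d : ℕ} (h : T r n s (m + d + 1) = ∅) : dimH (T (r + d + 1) n s m) ≤ (2 * d : ℕ) := by
  rw [dim_eq]
  have h1 : level (r + d + 1) n s m ≤ d := by
    rcases level_spec (r + d + 1) n s m with h0 | ⟨i, k, hi, hk, hik, hr, hne⟩
    · omega
    · by_contra hcon
      have h2 := extend (n' := n) (s' := s) (Nat.sub_le _ _) (Nat.sub_le _ _) hne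
      have h3 := mono (r' := r) (m := m + d + 1) (by omega) (by omega) h2
      rw [h] at h3
      exact not_nonempty_empty h3
  exact_mod_cast Nat.mul_le_mul_left 2 h1

theorem empty_s {r n s m d : ℕ} (h : dimH (T (r + d + 1) n (s + (d + 1)) m) ≤ (2 * d : ℕ)) :
    T r n s (m + d + 1) = ∅ := by
  by_contra hne
  have h1 := lower (r := r + d + 1) (n := n) (s := s + (d + 1)) (m := m) (i := 0) (k := d + 1) (by omega)
    (Nat.zero_le _) (by omega) (by
      rw [Nat.add_sub_cancel, Nat.sub_zero, zero_add, add_assoc r, Nat.add_sub_cancel, ← add_assoc]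
      exact nonempty_iff_ne_empty.2 hne)
  have h2 := h1.trans h
  have h3 : 2 * (0 + (d + 1)) ≤ 2 * d := by exact_mod_cast h2
  omega

theorem empty_n {r n s m d : ℕ} (h : dimH (T (r + d + 1) (n + (d + 1)) s m) ≤ (2 * d : ℕ)) :
    T r n s (m + d + 1) = ∅ := by
  by_contra hne
  have h1 := lower (r := r + d + 1) (n := n + (d + 1)) (s := s) (m := m) (i := d + 1) (k := 0) (by omega)
    (by omega) (Nat.zero_le _) (by
      rw [Nat.add_sub_cancel, Nat.sub_zero, add_zero, add_assoc r, Nat.add_sub_cancel, ← add_assoc]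
      exact nonempty_iff_ne_empty.2 hne)
  have h2 := h1.trans h
  have h3 : 2 * (d + 1 + 0) ≤ 2 * d := by exact_mod_cast h2
  omega

theorem periods_eq {n s : ℕ} (L : Fin n → PeriodPair) (w : Fin s → ℂ) : periods L w = PrS L ∪ range w := by
  unfold periods PrS
  congr 1
  · congr 1
    ext x
    simp only [Pr, mem_iUnion, mem_insert_iff, mem_singleton_iff]
    exact Iff.rfl
  · ext x
    exact ⟨fun ⟨k, h⟩ => ⟨k, h.symm⟩, fun ⟨k, h⟩ => ⟨k, h.symm⟩⟩

theorem bound_iff (n s m : ℕ) : PeriodBound n s m ↔ T 0 n s (m + 1) = ∅ := by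
  have hlt : ∀ (S : Set ℂ) (N : ℕ), ¬ ((N : Cardinal) ≤ Algebra.trdeg ℚ (IntermediateField.adjoin ℚ S) + m) ↔
      (Pool.Agent.TH813.Rel.MK (⊥ : IntermediateField ℚ ℂ)).eRk S + ((m + 1 : ℕ) : ℕ∞) ≤ (N : ℕ∞) := by
    intro S N
    rw [← trdeg_iff (S := S) (m + 1) N, not_le]
    constructor
    · intro h
      have h1 : Algebra.trdeg ℚ (IntermediateField.adjoin ℚ S) < Cardinal.aleph0 :=
        (self_le_add_right _ _).trans_lt (h.trans (Cardinal.natCast_lt_aleph0))
      obtain ⟨k, hk⟩ := Cardinal.lt_aleph0.1 h1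
      rw [hk] at h ⊢
      have h2 : k + m < N := by exact_mod_cast h
      exact_mod_cast (by omega : k + (m + 1) ≤ N)
    · intro h
      have h1 : Algebra.trdeg ℚ (IntermediateField.adjoin ℚ S) < Cardinal.aleph0 :=
        (self_le_add_right _ _).trans_lt (h.trans_lt (Cardinal.natCast_lt_aleph0))
      obtain ⟨k, hk⟩ := Cardinal.lt_aleph0.1 h1
      rw [hk] at h ⊢
      have h2 : k + (m + 1) ≤ N := by exact_mod_cast h
      exact_mod_cast (by omega : k + m < N)
  constructor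
  · intro h
    rw [eq_empty_iff_forall_notMem]
    rintro ⟨z, w⟩ hz
    have h1 := mem_T.1 hz
    obtain ⟨hj, hw⟩ := ty_zero_iffE.1 h1.ty
    have him : ∀ i, 0 < (z i).im := fun i => h1.bad.im _ ⟨i, rfl⟩
    obtain ⟨L, hL1, hL2, hL3⟩ := exists_modelsE him hj w
    have hz' : (fun i => (L i).ω₂ / (L i).ω₁) = z := funext hL1
    have h2 := h L w (fun i => by rw [hL1 i]; exact him i) hL2 hw
    rw [hz'] at h2
    have h3 := h1.bad.rk
    rw [← key] at h3
    refine (hlt (periods L w) (1 + 3 * a z + b z + c w)).2 ?_ h2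
    rw [periods_eq]
    exact (add_le_add hL3 le_rfl).trans h3
  · intro h L w hL1 hL2 hw
    by_contra hcon
    rw [hlt, periods_eq] at hcon
    set z : Fin n → ℂ := fun i => (L i).ω₂ / (L i).ω₁ with hz
    have h1 : (z, w) ∈ T 0 n s (m + 1) := by
      rw [mem_T]
      refine ⟨⟨finite_range z, ?_, ?_⟩, ?_⟩
      · rintro _ ⟨i, rfl⟩
        exact hL1 i
      · rw [← key]
        exact (add_le_add (rk_of_modelsE hL1 hL2 hw) le_rfl).trans hcon
      · exact ty_zero_iffE.2 ⟨fun i => jf_alg (hL1 i) (hL2 i).1 (hL2 i).2, hw⟩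
    rw [h] at h1
    exact h1

theorem result :
    -- the dimension of the exceptional sets
    (∀ r n s m : ℕ, dimH (T r n s m) = (2 * level r n s m : ℕ)) ∧
    (∀ r n s m i k : ℕ, i + k ≤ r → i ≤ n → k ≤ s → (T (r - (i + k)) (n - i) (s - k) (m + (i + k))).Nonempty →
      m + 4 * i + 2 * k ≤ 3 * n + s) ∧
    -- countability
    (∀ r n s m : ℕ, (T r n s m).Countable ↔
      (1 ≤ r → (1 ≤ n → T (r - 1) (n - 1) s (m + 1) = ∅) ∧ (1 ≤ s → T (r - 1) n (s - 1) (m + 1) = ∅))) ∧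
    (∀ n s m : ℕ, (T 1 n s m).Countable ↔
      (1 ≤ n → PeriodBound (n - 1) s m) ∧ (1 ≤ s → PeriodBound n (s - 1) m)) ∧
    -- the inequality over fields of any transcendence degree
    (∀ r n m d : ℕ, (∀ s, T r n s (m + d + 1) = ∅) ↔ ∀ s, dimH (T (r + d + 1) n s m) ≤ (2 * d : ℕ)) ∧
    (∀ r s m d : ℕ, (∀ n, T r n s (m + d + 1) = ∅) ↔ ∀ n, dimH (T (r + d + 1) n s m) ≤ (2 * d : ℕ)) ∧
    -- the inequality over `ℚ̄`
    (∀ n m d : ℕ, (∀ s, PeriodBound n s (m + d)) ↔ ∀ s, dimH (T (d + 1) n s m) ≤ (2 * d : ℕ)) ∧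
    (∀ s m d : ℕ, (∀ n, PeriodBound n s (m + d)) ↔ ∀ n, dimH (T (d + 1) n s m) ≤ (2 * d : ℕ)) ∧
    (∀ n m : ℕ, (∀ s, PeriodBound n s m) ↔ ∀ s, (T 1 n s m).Countable) ∧
    (∀ s m : ℕ, (∀ n, PeriodBound n s m) ↔ ∀ n, (T 1 n s m).Countable) := by
  have e1 : ∀ r n m d : ℕ, (∀ s, T r n s (m + d + 1) = ∅) ↔ ∀ s, dimH (T (r + d + 1) n s m) ≤ (2 * d : ℕ) :=
    fun r n m d => ⟨fun h s => dim_le (h s), fun h s => empty_s (h _)⟩
  have e2 : ∀ r s m d : ℕ, (∀ n, T r n s (m + d + 1) = ∅) ↔ ∀ n, dimH (T (r + d + 1) n s m) ≤ (2 * d : ℕ) :=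
    fun r s m d => ⟨fun h n => dim_le (h n), fun h n => empty_n (h _)⟩
  have e3 : ∀ n s m : ℕ, (T 1 n s m).Countable ↔
      (1 ≤ n → PeriodBound (n - 1) s m) ∧ (1 ≤ s → PeriodBound n (s - 1) m) := by
    intro n s m
    rw [countable_iff]
    simp only [bound_iff, Nat.sub_self]
    exact ⟨fun h => h le_rfl, fun h _ => h⟩
  have ext1 : ∀ {n s n' s' m : ℕ}, n ≤ n' → s ≤ s' → PeriodBound n' s' m → PeriodBound n s m := by
    intro n s n' s' m hn hs h
    rw [bound_iff] at h ⊢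
    by_contra hne
    have h1 := extend hn hs (nonempty_iff_ne_empty.2 hne)
    rw [h] at h1
    exact not_nonempty_empty h1
  refine ⟨dim_eq, fun r n s m i k hr hi hk h => ?_, countable_iff, e3, e1, e2, fun n m d => ?_, fun s m d => ?_,
    fun n m => ⟨fun h s => ?_, fun h s => ?_⟩, fun s m => ⟨fun h n => ?_, fun h n => ?_⟩⟩
  · have := bound h
    omega
  · simp only [bound_iff]
    have := e1 0 n m d
    rwa [zero_add] at this
  · simp only [bound_iff]
    have := e2 0 s m d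
    rwa [zero_add] at this
  · exact (e3 n s m).2 ⟨fun _ => ext1 (Nat.sub_le n 1) le_rfl (h s), fun _ => h _⟩
  · exact ((e3 n (s + 1) m).1 (h (s + 1))).2 (by omega)
  · exact (e3 n s m).2 ⟨fun _ => h _, fun _ => ext1 le_rfl (Nat.sub_le s 1) (h n)⟩
  · exact ((e3 (n + 1) s m).1 (h (n + 1))).1 (by omega)

end Pool.Agent.Results.MP_1eadae_ag.DimensionByFieldOfDefinition
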