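import Pool.Agent.H367.OS.GNori

/-!
# Kontsevich's period conjecture and one sequence of cubics over the integers

A relation `r` of size `m` is one of the equations `x_i x_j = x_l`, `x_i + x_j = x_l`, `x_i = 1` with
`i, j, l < m`; the relations are numbered, the number of `r` is `ν(r)` (`relNum`). Let `G_m` be the
following polynomial with integral coefficients (`univG ℤ m`). There are variables `x_i` and `z_ij` for
`i, j < m`, a variable `c_r` for every relation `r`, and variables `y_{r,l}` for all relations `r` and
`l < (m + 1) 2 ^ ν(r)`. The equations (`eqnG`) are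

  `z_ij - x_i x_j`,  `c_r ^ 2 - c_r`,  `c_r ρ_r`,  `(1 - c_r) y_{r,l}`,

where `ρ_r` is the linear polynomial `z_ij - x_l`, `x_i + x_j - x_l` or `x_i - 1` of the relation.
`G_m` is the sum of the equations multiplied by further variables `t_e`, one for each equation. It has
degree three. Let `C_m` be the affine cubic hypersurface `G_m = 1` (`cubG R m` over the ring `R`); it is
smooth over the integers.

Let `M` be the category of Nori motives over `ℚ̄`, with the Tate twists `N ↦ N(a)`. For a separated
scheme `X` of finite type over `ℚ` let `D.H j X = H^j_c(X)` be the Nori motive of the cohomology with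
compact supports of `X_ℚ̄`. `S N N'` says that `N` is an object of `⟨N'⟩`, the smallest full abelian
rigid tensor subcategory which contains `N'` and is closed under subquotients. Let `M(C_m) = ⨁_j
H^j_c(C_m)` (`motC D m`; `0 ≤ j ≤ 2 n`, where `n` is the number of variables of `G_m`).

Let `F` be the algebra of formal periods `P̃`, and `ev : F → ℂ` the evaluation map. For a Nori motive
`N` let `sub N ⊆ F` be the algebra of the formal periods of the motives in `⟨N⟩`; as an algebra over
`ℚ̄` it is generated by the formal periods of `N` and of the dual of `N`. These subalgebras are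
contained in each other if the categories are, and every formal period `(X, Y, i, ω, σ)` is in `sub
H^i(X, Y)` (`FormalPeriods`; the comparison with Nori motives is due to Nori and Kontsevich).

**Theorem.** (1) Kontsevich's conjecture (question Q1: the evaluation map is injective on `P̃`) is
true if and only if for infinitely many `m` the evaluation map is injective on the algebra `sub
M(C_m)` which is generated by the formal periods of the hypersurface `C_m` and of the dual motive.

(2) For every finite set `T` of formal periods there is an `m₀` such that for all `m ≥ m₀` the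
elements of `T` are in `sub M(C_m)`, polynomials in the formal periods of `C_m` and of the dual
motive. So if the evaluation map is injective on `sub M(C_m)` for one `m ≥ m₀`, all relations between
the numbers `ev x`, `x ∈ T`, are relations between the formal periods `x ∈ T`.

(3) For every affine scheme `Spec B` of finite type over `ℚ` and all large `m` there is an `N` such
that `H^{j+2e+1}_c(C_m) ≅ H^j_c(Spec B)(-e)` for `0 ≤ j ≤ 2 m`, with `e = (m + 1) N + E_m - 1`, where
`E_m` is the number of the equations.

(4) `G_m` has integral coefficients and degree at most three, and `C_m` is smooth over all rings.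

The hypotheses on the category of motives are the following ones.

* `IsCoh`: exact sequences of the cohomology with compact supports, affine bundles, the cohomology of
  affine spaces, and `H^j_c(X)` is zero for `j < 0` and `j > 2 dim X`.
* `IsTannakian`: the category `⟨N'⟩` contains `N'` and `𝟙`, it is closed under direct sums, direct factors
  and tensor products with Tate objects in it, and contains the duals of its Tate objects; `⟨N⟩ ⊆ ⟨N'⟩` if
  `N` is in `⟨N'⟩`.
* `GeneratedByAffine`: every `N` is in `⟨𝟙(1) ⊕ ⨁_j H^j_c(Spec B)⟩` for an affine scheme `Spec B` of finite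
  type over `ℚ`. In fact every Nori motive over `ℚ̄` is a subquotient of some `H^j_c(V)(a)`: By the basic
  lemma it is a subquotient of a sum of twists of `H^i(W ∖ D, E ∖ D)`, where `W` is smooth and projective
  and `D ∪ E` is a divisor with normal crossings. If `D` is smooth let `V` be the blowing-up of `W × ℙ^1`
  in `D × 0`, without the strict transforms of `W × 0` and `W × 1` and without the inverse image of `E`;
  then `H^{i+1}_c(V)` is the direct sum of `H^i(W ∖ D, E ∖ D)` and `H^{i-1}_c(W ∖ E)(-1)`. In general
  take the fibre product over `W` of such schemes for the components of `D`. The scheme `V` is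
  quasi-projective over a number field, it is an open and closed part of `V'_ℚ̄`, where `V'` is `V` regarded
  as a scheme over `ℚ`, and by Jouanolou's device one can take an affine scheme, up to a Tate twist.

Idea of the proof. The projection of `C_m` to the affine space with the coordinates `x, z, c, y` is an
affine bundle over the complement of the zero set `W_m` of the equations. The scheme `W_m` is the
disjoint union, over all sets `s` of relations (`c_r = 1` for `r ∈ s` and `c_r = 0` for the others), of
the products `X_s × 𝔸 ^ ((m + 1) N(s))`, where `X_s` is the affine scheme defined by the relations in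
`s` and `N(s) = ∑_{r ∈ s} 2 ^ ν(r)`. The numbers `N(s)` are different, and the dimension of `X_s` is at
most `m`. So the invariant of `W_m` with the index `q + (m + 1) N(s)`, `0 ≤ q ≤ m`, is the invariant of
`X_s` with the index `q`; the other components do not contribute. Every affine scheme of finite type
over a prime field is an `X_s`, for all large `m`.

The universal system of relations is the one of helper854 (`Pool.Agent.H854.SQ`).
-/

set_option autoImplicit false

open CategoryTheory CategoryTheory.Limits AlgebraicGeometry Pool.Agent.Y116.UV Pool.Agent.Z125.UN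
  Pool.Agent.Q193.LT Pool.Agent.H854.SQ Pool.Agent.H367.OS

universe v u



namespace Pool.Agent.Results.MP_1eadae_ag.OneSequenceOverTheIntegers

/-- The algebra `F` of the formal periods, the evaluation map and the subalgebras `sub N` of the formal
periods of the motives in `⟨N⟩`. -/
structure FormalPeriods {M : Type u} (S : M → M → Prop) (F : Type) [CommRing F] where
  /-- the evaluation map -/
  ev : F →+* ℂ
  /-- the algebra of the formal periods of the motives in `⟨N⟩` -/
  sub : M → Subring F
  mono : ∀ {N N' : M}, S N N' → sub N ≤ sub N'
  exhaust : ∀ x : F, ∃ N : M, x ∈ sub N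

/-- **Kontsevich's period conjecture and one sequence of cubic hypersurfaces over the integers.** See the
explanations above. -/
theorem result {M : Type u} [Category.{v} M] [Abelian M] {D : CompactData ℚ M} (coh : IsCoh D)
    {S : M → M → Prop} (tannakian : IsTannakian D S) (generated : GeneratedByAffine D S)
    {F : Type} [CommRing F] (P : FormalPeriods S F) :
    List.TFAE [Function.Injective P.ev,
      ∀ m, Set.InjOn P.ev (P.sub (motC D m)),
      ∃ᶠ m in Filter.atTop, Set.InjOn P.ev (P.sub (motC D m))] ∧
    (∀ T : Finset F, ∃ m₀ : ℕ, ∀ m, m₀ ≤ m → (T : Set F) ⊆ P.sub (motC D m) ∧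
      (Set.InjOn P.ev (P.sub (motC D m)) → ∀ f : MvPolynomial T ℤ,
        MvPolynomial.aeval (fun x : T => P.ev x) f = 0 →
          MvPolynomial.aeval (fun x : T => (x : F)) f = 0)) ∧
    (∀ (B : Type) [CommRing B] [Algebra ℚ B] [Algebra.FiniteType ℚ B], ∃ m₀ : ℕ, ∀ m, m₀ ≤ m →
      ∃ N : ℕ, ∀ j : ℤ, 0 ≤ j → j ≤ 2 * m → Nonempty (D.H (j + 2 * esh m N + 1) (cubG ℚ m) ≅
        (D.tw (-esh m N)).obj (D.H j (aff ℚ B)))) ∧
    ∀ m : ℕ, (univG ℤ m).totalDegree ≤ 3 ∧
      ∀ (R : Type) [CommRing R], MvPolynomial.map (Int.castRingHom R) (univG ℤ m) = univG R m ∧
        Smooth (cubG R m).hom := by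
  have key : ∀ x : F, ∃ m₀ : ℕ, ∀ m, m₀ ≤ m → x ∈ P.sub (motC D m) := by
    intro x
    obtain ⟨N, hN⟩ := P.exhaust x
    obtain ⟨m₀, hm⟩ := tannakian.exhaust isPrimeField_rat coh generated N
    exact ⟨m₀, fun m hm1 => P.mono (hm m hm1) hN⟩
  refine ⟨?_, fun T => ?_, fun B _ _ _ => by
    obtain ⟨m₀, hm⟩ := coh_affine.{v, u} isPrimeField_rat B
    refine ⟨m₀, fun m hm1 => ?_⟩
    obtain ⟨N, hN⟩ := hm m hm1
    exact ⟨N, fun j h0 h1 => hN M D coh j h0 h1⟩,
    cubG_facts⟩
  · tfae_have 1 → 2 := fun h m => h.injOn
    tfae_have 2 → 3 := fun h => (Filter.Eventually.of_forall h).frequently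
    tfae_have 3 → 1 := fun h x y hxy => by
      obtain ⟨m₀, hm⟩ := key x
      obtain ⟨m₁, hm'⟩ := key y
      obtain ⟨m, hm1, hm2⟩ := (Filter.frequently_atTop.1 h) (max m₀ m₁)
      exact hm2 (hm m ((le_max_left _ _).trans hm1)) (hm' m ((le_max_right _ _).trans hm1)) hxy
    tfae_finish
  · choose m₀ hm using key
    refine ⟨T.sup m₀, fun m hm1 => ?_⟩
    have hT : (T : Set F) ⊆ P.sub (motC D m) := fun x hx =>
      hm x m ((Finset.le_sup hx).trans hm1)
    refine ⟨hT, fun h f hf => ?_⟩
    have h1 : MvPolynomial.aeval (fun x : T => (x : F)) f ∈ P.sub (motC D m) := by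
      rw [MvPolynomial.aeval_def, MvPolynomial.eval₂_eq]
      exact Subring.sum_mem _ fun d _ => Subring.mul_mem _
        (by simp)
        (Subring.prod_mem _ fun x _ => Subring.pow_mem _ (hT x.2) _)
    refine h h1 (Subring.zero_mem _) ?_
    rw [map_zero, ← hf]
    simp only [MvPolynomial.aeval_def, MvPolynomial.eval₂_eq, map_sum, map_mul, map_prod, map_pow,
      eq_intCast, map_intCast]

end Pool.Agent.Results.MP_1eadae_ag.OneSequenceOverTheIntegers
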